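import Mathlib

/-!
Project MP_78d38b_QC: the change of cutoff `Y = (X / C) ^ n / N₁` (pure analysis).
-/

set_option autoImplicit false

namespace H82QC

/-- The change of cutoff: a lower bound `Y / (log Y) ^ (1 - e)` at `Y = (X / C) ^ n / N₁` gives
the lower bound `X ^ n / (log X) ^ (1 - e₂)` for large `X`. -/
theorem cutoff (n : ℕ) (hn : 1 ≤ n) {C N₁ e : ℝ} (hC : 0 < C) (hN : 0 < N₁) (he : 0 < e)
    (Y₀ : ℝ) :
    ∃ e₂ : ℝ, 0 < e₂ ∧ ∃ X₀ : ℝ, ∀ X : ℝ, X₀ ≤ X →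
      Y₀ ≤ (X / C) ^ n / N₁ ∧
      X ^ n / Real.log X ^ (1 - e₂) ≤
        (X / C) ^ n / N₁ / Real.log ((X / C) ^ n / N₁) ^ (1 - e) := by
  obtain ⟨e', he'⟩ : ∃ e' : ℝ, e' = min e 1 := ⟨_, rfl⟩
  have h0 : 0 < e' := by rw [he']; exact lt_min he one_pos
  have h1 : e' ≤ 1 := he' ▸ min_le_right _ _
  have h2 : e' ≤ e := he' ▸ min_le_left _ _
  obtain ⟨B, hB⟩ : ∃ B : ℝ, B = C ^ n * N₁ := ⟨_, rfl⟩
  have hB0 : 0 < B := by rw [hB]; positivity
  have hnr : (1 : ℝ) ≤ n := by exact_mod_cast hn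
  have hY : ∀ X : ℝ, (X / C) ^ n / N₁ = X ^ n / B := by
    intro X
    rw [hB, div_pow, div_div]
  have t1 : Filter.Tendsto (fun X : ℝ => X ^ n / B) Filter.atTop Filter.atTop :=
    (Filter.tendsto_pow_atTop (by omega)).atTop_div_const hB0
  have t2 : Filter.Tendsto (fun X : ℝ => (Real.log X) ^ (e' / 2)) Filter.atTop Filter.atTop :=
    (tendsto_rpow_atTop (by positivity)).comp Real.tendsto_log_atTop
  obtain ⟨x1, hx1⟩ := Filter.eventually_atTop.1
    ((t1.eventually (Filter.eventually_ge_atTop (max Y₀ (Real.exp 1)))).and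
      ((Real.tendsto_log_atTop.eventually
        (Filter.eventually_ge_atTop (max 1 (-Real.log B)))).and
        ((t2.eventually (Filter.eventually_ge_atTop (B * (2 * n : ℝ) ^ (1 - e')))).and
          (Filter.eventually_gt_atTop 1))))
  refine ⟨e' / 2, by positivity, x1, fun X hX => ?_⟩
  obtain ⟨a1, a2, a3, a4⟩ := hx1 X hX
  rw [hY]
  have hX0 : 0 < X := by linarith
  obtain ⟨Y, hYd⟩ : ∃ Y : ℝ, Y = X ^ n / B := ⟨_, rfl⟩
  rw [← hYd] at a1 ⊢
  have b1 : Y₀ ≤ Y := le_trans (le_max_left _ _) a1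
  have b2 : Real.exp 1 ≤ Y := le_trans (le_max_right _ _) a1
  have hYpos : 0 < Y := lt_of_lt_of_le (Real.exp_pos 1) b2
  have hlY : 1 ≤ Real.log Y := by
    rw [Real.le_log_iff_exp_le hYpos]
    exact b2
  have hlX : 1 ≤ Real.log X := le_trans (le_max_left _ _) a2
  have hlB : -Real.log B ≤ Real.log X := le_trans (le_max_right _ _) a2
  have hlX0 : 0 < Real.log X := by linarith
  have hlYX : Real.log Y ≤ 2 * n * Real.log X := by
    rw [hYd, Real.log_div (by positivity) (by positivity), Real.log_pow]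
    nlinarith
  refine ⟨b1, ?_⟩
  -- compare the exponents
  have c1 : Real.log Y ^ (1 - e) ≤ Real.log Y ^ (1 - e') :=
    Real.rpow_le_rpow_of_exponent_le hlY (by linarith)
  have c2 : Real.log Y ^ (1 - e') ≤ (2 * n * Real.log X) ^ (1 - e') :=
    Real.rpow_le_rpow (by linarith) hlYX (by linarith)
  have c3 : (2 * n * Real.log X) ^ (1 - e') =
      (2 * n : ℝ) ^ (1 - e') * Real.log X ^ (1 - e') :=
    Real.mul_rpow (by positivity) hlX0.le
  have c4 : Real.log X ^ (1 - e' / 2) = Real.log X ^ (1 - e') * Real.log X ^ (e' / 2) := by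
    rw [← Real.rpow_add hlX0]
    congr 1
    ring
  have hp1 : 0 < Real.log X ^ (1 - e') := Real.rpow_pos_of_pos hlX0 _
  have hp2 : 0 < Real.log Y ^ (1 - e) := Real.rpow_pos_of_pos (by linarith) _
  have hp3 : 0 < Real.log X ^ (1 - e' / 2) := Real.rpow_pos_of_pos hlX0 _
  have hXn : X ^ n = Y * B := by
    rw [hYd]
    field_simp
  have key : B * Real.log Y ^ (1 - e) ≤ Real.log X ^ (1 - e' / 2) := by
    calc B * Real.log Y ^ (1 - e) ≤ B * ((2 * n : ℝ) ^ (1 - e') * Real.log X ^ (1 - e')) :=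
          mul_le_mul_of_nonneg_left (le_trans c1 (le_trans c2 c3.le)) hB0.le
      _ = B * (2 * n : ℝ) ^ (1 - e') * Real.log X ^ (1 - e') := by ring
      _ ≤ Real.log X ^ (e' / 2) * Real.log X ^ (1 - e') :=
          mul_le_mul_of_nonneg_right a3 hp1.le
      _ = Real.log X ^ (1 - e' / 2) := by rw [c4]; ring
  rw [hXn, div_le_div_iff₀ hp3 hp2]
  calc Y * B * Real.log Y ^ (1 - e) = Y * (B * Real.log Y ^ (1 - e)) := by ring
    _ ≤ Y * Real.log X ^ (1 - e' / 2) := mul_le_mul_of_nonneg_left key hYpos.le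

end H82QC
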